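import Pool.Agent.Q294.Macro.Main

/-!
# A transient random walk whose range has different lower macroscopic dimensions
-/

namespace Pool.Agent.Results.MP_fbfbfd_pr.LowerDimensionsDiffer

open Q294.Macro MeasureTheory ProbabilityTheory

/-- There is a transient random walk on the integers with `λ_X = 0` whose range has, almost surely,
lower Minkowski dimension `0` and lower Hausdorff dimension `1`. -/
theorem result : ∃ (Ω : Type) (_ : MeasurableSpace Ω) (P : Measure Ω)
    (ξ : ℕ → Ω → (Fin 1 → ℤ)), IsProbabilityMeasure P ∧ (∀ i, Measurable (ξ i)) ∧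
    iIndepFun ξ P ∧ (∀ i, IdentDistrib (ξ i) (ξ 0) P P) ∧ Transient P ξ ∧ lam P ξ = 0 ∧
    ∀ᵐ ω ∂P, lowerM (rng ξ ω) = 0 ∧ lowerH (rng ξ ω) = 1 := by
  refine ⟨ℕ → ℕ, inferInstance, Pr, xi, inferInstance, measurable_xi, iIndepFun_xi,
    identDistrib_xi, transient, lam_eq, ?_⟩
  filter_upwards [ae_small, ae_large] with ω h1 h2
  exact ⟨lowerM_eq h2, lowerH_eq h1⟩

end Pool.Agent.Results.MP_fbfbfd_pr.LowerDimensionsDiffer
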